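import Pool.Agent.H10R3.SC.Stmts2

/-! Task TSmallGood of project H10-MC. -/

set_option autoImplicit false
set_option linter.unusedSectionVars false

open Finset

namespace Pool.Agent.H181R5.MC

open Pool.Agent.Helper347.Sab
open Pool.Agent.H444.FA
open Pool.Agent.H10R3.SC

section

variable {V E V1 E1 : Type} [Fintype V] [DecidableEq V] [Fintype E] [DecidableEq E]
  [Fintype V1] [DecidableEq V1] [Fintype E1] [DecidableEq E1]

theorem dg_map (G : MGraph V E) (G1 : MGraph V1 E1) (f : V1 → V) (g : E1 ↪ E)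
    (hends : ∀ e' v', v' ∈ G1.ends e' ↔ f v' ∈ G.ends (g e')) (Z : Finset E1) (v : V1) :
    dg G1 Z v = dg G (Z.map g) (f v) := by
  unfold dg
  rw [Finset.filter_map, Finset.card_map]
  congr 1
  ext e
  simp only [mem_filter, Function.comp]
  rw [hends]

theorem pos_of_mem (G : MGraph V E) (H : Finset E) (e : E) (he : e ∈ H) (v : V)
    (hv : v ∈ G.ends e) : dg G H v ≠ 0 := by
  unfold dg
  rw [Finset.card_ne_zero]
  exact ⟨e, mem_filter.2 ⟨he, hv⟩⟩

theorem dg_le (G : MGraph V E) {X Y : Finset E} (h : X ⊆ Y) (v : V) : dg G X v ≤ dg G Y v :=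
  card_le_card (filter_subset_filter _ h)

end

theorem smallGood (h1 : TSubG) (h2 : TCdcGood) (h3 : TCutCirc) : TSmallGood := by
  intro n hmin V E _ _ _ _ G H D hDH hD hdeg hcut hn
  obtain ⟨V1, E1, i1, i2, i3, i4, G1, f, g', hf, hg', hgH, hends', hrange, hcard⟩ := h1 V E G H
  obtain ⟨g, hgg⟩ : ∃ g : E1 ↪ E, ∀ e, g e = g' e := ⟨⟨g', hg'⟩, fun _ => rfl⟩
  have hends : ∀ e' v', v' ∈ G1.ends e' ↔ f v' ∈ G.ends (g e') := fun e' v' => by
    rw [hgg]; exact hends' e' v'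
  have hg : ∀ e, e ∈ H ↔ ∃ e', g e' = e := fun e => by
    rw [hgH]
    exact exists_congr fun e' => by rw [hgg]
  have hmem : ∀ e', g e' ∈ H := fun e' => (hg _).2 ⟨e', rfl⟩
  have hran : ∀ e' w, w ∈ G.ends (g e') → ∃ w', f w' = w := fun e' w hw =>
    (hrange w).1 (pos_of_mem G H _ (hmem e') w hw)
  have huniv : (univ : Finset E1).map g = H := by
    ext e
    simp only [mem_map, mem_univ, true_and]
    exact (hg e).symm
  have hcub : IsCubic G1 := by
    intro v
    rw [dg_map G G1 f g hends, huniv]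
    rcases hdeg (f v) with h | h
    · exact absurd h ((hrange _).2 ⟨v, rfl⟩)
    · exact h
  obtain ⟨D1, hD1⟩ : ∃ D1 : Finset E1, ∀ e, e ∈ D1 ↔ g e ∈ D :=
    ⟨univ.filter fun e => g e ∈ D, fun e => by simp⟩
  have hD1map : D1.map g = D := by
    ext e
    simp only [mem_map]
    constructor
    · rintro ⟨a, ha, rfl⟩
      exact (hD1 a).1 ha
    · intro he
      obtain ⟨a, ha⟩ := (hg e).1 (hDH he)
      exact ⟨a, (hD1 a).2 (by rw [ha]; exact he), ha⟩
  obtain ⟨hDne, hDdeg, hDcon⟩ := hD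
  have hlift : ∀ x y, Relation.ReflTransGen (fun a b => b ∈ D ∧ Touch G a b) x y →
      ∀ a, g a = x → ∃ b, g b = y ∧
        Relation.ReflTransGen (fun a b => b ∈ D1 ∧ Touch G1 a b) a b := by
    intro x y hxy
    induction hxy with
    | refl => intro a ha; exact ⟨a, ha, Relation.ReflTransGen.refl⟩
    | tail _ h ih =>
      intro a ha
      obtain ⟨b, hb, hab⟩ := ih a ha
      obtain ⟨hz, v, hv1, hv2⟩ := h
      obtain ⟨c, hc⟩ := (hg _).1 (hDH hz)
      refine ⟨c, hc, hab.tail ⟨(hD1 c).2 (by rw [hc]; exact hz), ?_⟩⟩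
      rw [← hb] at hv1
      rw [← hc] at hv2
      obtain ⟨w, rfl⟩ := hran b v hv1
      exact ⟨w, (hends b w).2 hv1, (hends c w).2 hv2⟩
  have hC1 : IsCircuit G1 D1 := by
    refine ⟨?_, ?_, ?_⟩
    · obtain ⟨e, he⟩ := hDne
      obtain ⟨a, ha⟩ := (hg e).1 (hDH he)
      exact ⟨a, (hD1 a).2 (by rw [ha]; exact he)⟩
    · intro v
      rw [dg_map G G1 f g hends, hD1map]
      exact hDdeg (f v)
    · intro a ha b hb
      obtain ⟨c, hc, hac⟩ := hlift _ _ (hDcon (g a) ((hD1 a).1 ha) (g b) ((hD1 b).1 hb)) a rfl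
      rw [← g.injective hc]
      exact hac
  have hcut1 : ∀ Y : Finset V1, (cut G1 univ Y).card ≠ 1 := by
    intro Y
    obtain ⟨Y', hY'⟩ : ∃ Y' : Finset V, ∀ v, v ∈ Y' ↔ ∃ w ∈ Y, f w = v :=
      ⟨Y.image f, fun v => by simp⟩
    have he : (cut G1 univ Y).map g = cut G H Y' := by
      ext e
      simp only [cut, mem_map, mem_filter, mem_univ, true_and]
      constructor
      · rintro ⟨a, ⟨⟨u, hu, hu'⟩, w, hw, hw'⟩, rfl⟩
        refine ⟨hmem a, ⟨f u, (hends a u).1 hu, (hY' _).2 ⟨u, hu', rfl⟩⟩, f w, (hends a w).1 hw,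
          fun h => ?_⟩
        obtain ⟨w2, h2', h3'⟩ := (hY' _).1 h
        rw [hf h3'] at h2'
        exact hw' h2'
      · rintro ⟨heH, ⟨u, hu, hu'⟩, w, hw, hw'⟩
        obtain ⟨a, rfl⟩ := (hg e).1 heH
        obtain ⟨u1, h4, rfl⟩ := (hY' u).1 hu'
        obtain ⟨w1, rfl⟩ := hran a w hw
        exact ⟨a, ⟨⟨u1, (hends a u1).2 hu, h4⟩, w1, (hends a w1).2 hw,
          fun h => hw' ((hY' _).2 ⟨w1, h, rfl⟩)⟩, rfl⟩
    rw [← Finset.card_map g, he]
    exact hcut Y'
  have hcdc : ∃ F : Multiset (Finset E1), IsCDC G1 F ∧ D1 ∈ F := by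
    by_contra hno
    have h4 := hmin V1 E1 G1 hcub (h3 V1 E1 G1 (fun v => (hcub v).le) hcut1) D1 hC1 hno
    omega
  obtain ⟨F, hF, hDF⟩ := hcdc
  obtain ⟨k, Z, -, hZ2, hZ3⟩ := h2 V1 E1 G1 D1 F hF hDF
  refine ⟨k, fun c => (Z c).map g, fun c e he => ?_, fun e he => ?_, fun c v => ?_⟩
  · obtain ⟨a, -, rfl⟩ := mem_map.1 he
    exact hmem a
  · obtain ⟨a, rfl⟩ := (hg e).1 he
    have h5 := hZ2 a (mem_univ a)
    have h6 : (univ.filter fun c => g a ∈ (Z c).map g) = univ.filter fun c => a ∈ Z c := by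
      ext c
      simp only [mem_filter, mem_univ, true_and, Finset.mem_map']
    rw [h6, h5]
    unfold mS
    simp only [hD1 a]
  · by_cases hv : ∃ v', f v' = v
    · obtain ⟨v', rfl⟩ := hv
      rw [← dg_map G G1 f g hends]
      exact hZ3 c v'
    · have h7 : dg G H v = 0 := by
        by_contra h
        exact hv ((hrange v).1 h)
      have h8 : (Z c).map g ⊆ H := fun e he => by
        obtain ⟨a, -, rfl⟩ := mem_map.1 he
        exact hmem a
      have h9 := dg_le G h8 v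
      have h10 : dg G ((Z c).map g) v = 0 := by omega
      rw [h10]
      exact Even.zero

end Pool.Agent.H181R5.MC
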